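import Pool.Agent.N375.AV.D
import Pool.Agent.Results.MP_e44225_nt.OneExceptionalSet

/-!
# The error term in Vojta's inequality for all curves at all points over all elements whose radicals are near values of
additive functions and of their compositions

Let `F = f_1 ∘ ⋯ ∘ f_n` be a composition of functions which are dominated by the largest prime factor, for example the sum of
the prime factors, with or without multiplicity, and every additive function with `f (q ^ j) ≤ C q ^ j` which is injective at the
large primes, the largest prime factor, Kempner's function (the least `k` with `m ∣ k!`). Let `G` have steps bounded below by a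
positive constant and growth at most `v ^ d`, for example `G v = v`. Let `K` be a number field, `a_1, …, a_q`, `q ≥ 3`,
distinct rational numbers and `R(x)` the exponential of the truncated counting function of `[a_1] + … + [a_q]` at `x`, the
product of the norms of the primes at which `x` and some `a_j` have the same reduction; there are `X ^ (2 / q + o(1))`
elements `x` of `K`, of whatever height, with `R(x) ≤ X`. Let `κ > 0`. There is `ν > 0` such that for `θ ≥ 0`,
`d (2 / q - ν) + θ < 1`, there is ONE set `W` of integers `m`, with at most `A N exp (- b (log N) ^ (1 / (n + 1)))` elements up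
to `N` for suitable `A, b > 0` and all `N`, such that for ALL number fields `k`, ALL smooth projective curves `C` over `k` and ALL
finite maps `t : C → ℙ¹` over `k` which are unramified outside the fibres over the `a_j` (by Belyi's theorem every curve has such
maps, and every reduced divisor `D` of `C` is contained in the union `F` of the fibres over the `a_j` for some such map) all
points `P` of all degrees over ALL `x` in `K` with `|R(x) - G (F m)| ≤ F(m) ^ θ` for some `m` not in `W` satisfy
`m_S(F, P) + (deg K_C / N) h(x) ≤ d(L) - (2 - κ) h(x) + ∑_{p ∈ S} log p + c` for all finite sets `S` of primes and all number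
fields `L` over which `P` is defined, and, with finitely many exceptions `x` for each `S`,
`m_S(F, P) + (deg K_C / N) h(x) < d(L) - (2 - κ) h(x)`. For the terms see `OneExceptionalSet`. The values of `F` are
in general taken with very large multiplicities, and so this does not follow from the number of exceptional `x`.
-/

set_option autoImplicit false

namespace Pool.Agent.Results.MP_e44225_nt.AdditiveValues

open Polynomial IsDedekindDomain NumberField
open Pool.Agent.N733.TG (Expanding expanding_pow)
open Pool.Agent.N375.AV (PD comp pd_additive pd_largest pd_kempner)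
open OneExceptionalSet (coord height proximity counting logDisc canonical Values)

/-- `R(x)`, the exponential of the truncated counting function of `[a_1] + … + [a_q]` at `x` -/
noncomputable def rad {K : Type} [Field K] [NumberField K] {q : ℕ} (a : Fin q → ℚ) (x : K) : ℝ :=
  Real.exp (counting (fun j => algebraMap ℚ K (a j)) x)

/-- the number of the elements of `W` up to `N` is at most `A N exp (- c (log N) ^ (1 / (n + 1)))`, for all `N ≥ 1` and some
constants `A` and `c > 0` -/
def Sparse (n : ℕ) (W : Set ℕ) : Prop :=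
  ∃ c A : ℝ, 0 < c ∧ ∀ N : ℕ, 1 ≤ N → ({m : ℕ | 1 ≤ m ∧ m ≤ N ∧ m ∈ W}.ncard : ℝ) ≤
    A * N * Real.exp (-(c * Real.log N ^ ((1 : ℝ) / (n + 1))))

/-- **Theorem.** Let `K` be a number field, `a_1, …, a_q`, `q ≥ 3`, distinct rational numbers and `κ > 0`. There is `ν > 0`
with the following property. Let `F = f_1 ∘ ⋯ ∘ f_n` be a composition of functions dominated by the largest prime factor, let
`G` have steps `≥ a > 0` and growth at most `v ^ d`, `θ ≥ 0` and `d (2 / q - ν) + θ < 1`. There is a set `W` of integers with at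
most `A N exp (- b (log N) ^ (1 / (n + 1)))` elements up to `N`, for some `A`, `b > 0` and all `N ≥ 1`, such that the following
holds for all number fields `k`. Let `A` be a Dedekind domain, finite over `k[t]` and containing it, and let
`y_{j 0} = t - a_j, y_{j 1}, …` be elements of the radical of the ideal `(t - a_j)` of `A`, for example generators. Write `g` for
`q - 2 - (∑_j dim (A / (y_{j 0}, y_{j 1}, …))) / N`. (a) There is a constant `c` such that for all `m ≥ 1` not in `W` and ALL `x` in
`K`, different from the `a_j`, with `|R(x) - G (F m)| ≤ F(m) ^ θ`, all points `P` of the curve with `t(P) = x`, all number fields `L`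
containing `k` and `K` over which `P` is defined and all finite sets `S` of primes satisfy
`m_S(F, P) + g h(x) ≤ d(L) - (2 - κ) h(x) + ∑_{p ∈ S} log p + c`. (b) For every finite set `S` of primes, all but finitely many of
these `x` satisfy `m_S(F, P) + g h(x) < d(L) - (2 - κ) h(x)` for all these `P` and `L`. Additive functions `f` with
`f (q ^ j) ≤ C q ^ j` which are injective at the large primes, the largest prime factor and Kempner's function are dominated by
the largest prime factor, and `α v ^ d` with `α > 0`, `d ≥ 1` is an example of `G`. -/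
theorem result (K : Type) [Field K] [NumberField K] (q : ℕ) (hq : 3 ≤ q) (a : Fin q → ℚ)
    (ha : Function.Injective a) (κ : ℝ) (hκ : 0 < κ) :
    (∃ ν : ℝ, 0 < ν ∧ ∀ fs : List (ℕ → ℕ), (∀ f ∈ fs, PD f) → ∀ (G : ℕ → ℝ) (d θ : ℝ), Expanding G d → 0 ≤ θ →
      d * (2 / (q : ℝ) - ν) + θ < 1 → ∃ W : Set ℕ, Sparse fs.length W ∧
      ∀ (k : Type) [Field k] [NumberField k] (A : Type) [CommRing A] [IsDedekindDomain A]
        [Algebra k A] [Algebra k[X] A] [IsScalarTower k k[X] A] [Module.Finite k[X] A]
        [FaithfulSMul k[X] A] (u : Fin q → ℕ) (y : ∀ j, Fin (u j + 1) → A),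
        (∀ j, y j 0 = coord k A - algebraMap k A (algebraMap ℚ k (a j))) →
        (∀ j i, y j i ∈
          (Ideal.span {coord k A - algebraMap k A (algebraMap ℚ k (a j))}).radical) →
        (∃ c : ℝ, ∀ m : ℕ, 1 ≤ m → m ∉ W → ∀ x : K, (∀ j, x ≠ algebraMap ℚ K (a j)) →
          |rad a x - G (comp fs m)| ≤ (comp fs m : ℝ) ^ θ →
          ∀ (L : Type) [Field L] [NumberField L] [Algebra K L] [Algebra k L] (φ : A →ₐ[k] L),
            φ (coord k A) = algebraMap K L x → ∀ S : Finset ℕ, (∀ p ∈ S, p.Prime) →
              proximity S y φ + canonical k y * height x ≤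
                logDisc L - (2 - κ) * height x + ∑ p ∈ S, Real.log p + c) ∧
        ∀ S : Finset ℕ, (∀ p ∈ S, p.Prime) → ∃ R : Set K, R.Finite ∧
          ∀ m : ℕ, 1 ≤ m → m ∉ W → ∀ x : K, x ∉ R → (∀ j, x ≠ algebraMap ℚ K (a j)) →
          |rad a x - G (comp fs m)| ≤ (comp fs m : ℝ) ^ θ →
          ∀ (L : Type) [Field L] [NumberField L] [Algebra K L] [Algebra k L] (φ : A →ₐ[k] L),
            φ (coord k A) = algebraMap K L x →
              proximity S y φ + canonical k y * height x < logDisc L - (2 - κ) * height x) ∧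
    ((∀ f : ℕ → ℕ, (∀ a b : ℕ, Nat.Coprime a b → f (a * b) = f a + f b) →
        (∃ C : ℕ, ∀ q j : ℕ, q.Prime → 1 ≤ j → f (q ^ j) ≤ C * q ^ j) →
        (∃ P : ℕ, ∀ p q : ℕ, p.Prime → q.Prime → P ≤ p → P ≤ q → f p = f q → p = q) → PD f) ∧
      PD (fun n => n.primeFactors.sup id) ∧ PD (fun n => sInf {k : ℕ | n ∣ k.factorial})) ∧
    ∀ α d : ℝ, 0 < α → 1 ≤ d → Expanding (fun v => α * (v : ℝ) ^ d) d := by
  refine ⟨?_, ⟨fun f h1 h2 h3 => pd_additive h1 h2 h3, pd_largest, pd_kempner⟩, fun α d hα hd => expanding_pow hα hd⟩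
  obtain ⟨hval, hres⟩ := OneExceptionalSet.result K q hq a ha
  obtain ⟨E, ⟨ν, C, hν, hC, hcount⟩, -, hE⟩ := hres κ hκ
  have hfin : ∀ X : ℝ, 1 ≤ X → (Values K a X).Finite := by
    obtain ⟨⟨C1, h1⟩, -⟩ := hval 1 one_pos
    exact fun X hX => (h1 X hX).1
  have hq0 : (0 : ℝ) < q := by
    have : 0 < q := by omega
    exact_mod_cast this
  have hg : 0 < 2 / (q : ℝ) := by positivity
  obtain ⟨ν', hν'⟩ : ∃ ν', ν' = min ν (2 / (q : ℝ)) := ⟨_, rfl⟩
  have hν'0 : 0 < ν' := by rw [hν']; exact lt_min hν hg
  have hν'1 : ν' ≤ ν := by rw [hν']; exact min_le_left _ _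
  have hν'2 : ν' ≤ 2 / (q : ℝ) := by rw [hν']; exact min_le_right _ _
  refine ⟨ν', hν'0, fun fs hfs G d θ hG hθ h3 => ?_⟩
  obtain ⟨S₀, hS₀⟩ : ∃ S₀ : Set K, S₀ = {x : K | x ∈ E ∧ ∀ j, x ≠ algebraMap ℚ K (a j)} := ⟨_, rfl⟩
  refine ⟨{m : ℕ | ∃ x ∈ S₀, |rad a x - G (comp fs m)| ≤ (comp fs m : ℝ) ^ θ}, ?_, ?_⟩
  · obtain ⟨c, A, hc, hN₀⟩ := Pool.Agent.N375.AV.windows_unif (fun x : K => rad a x) fs hfs hG
      (s := 2 / (q : ℝ) - ν') (by linarith) hθ h3 C
    refine ⟨c, A, hc, fun N hN => ?_⟩
    refine hN₀ S₀ (fun X hX => ?_) N hN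
    have hX0 : 0 < X := by linarith
    have hsub : {x : K | x ∈ S₀ ∧ rad a x ≤ X} ⊆ E ∩ Values K a X := by
      rintro x ⟨h1, h2⟩
      rw [hS₀] at h1
      refine ⟨h1.1, h1.2, ?_⟩
      rw [Real.le_log_iff_exp_le hX0]
      exact h2
    have hf2 : (E ∩ Values K a X).Finite := (hfin X hX).subset Set.inter_subset_right
    refine ⟨hf2.subset hsub, ?_⟩
    have e1 : X ^ (2 / (q : ℝ) - ν) ≤ X ^ (2 / (q : ℝ) - ν') :=
      Real.rpow_le_rpow_of_exponent_le hX (by linarith)
    calc ({x : K | x ∈ S₀ ∧ rad a x ≤ X}.ncard : ℝ) ≤ ((E ∩ Values K a X).ncard : ℝ) := by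
          exact_mod_cast Set.ncard_le_ncard hsub hf2
      _ ≤ C * X ^ (2 / (q : ℝ) - ν) := hcount X hX
      _ ≤ C * X ^ (2 / (q : ℝ) - ν') := mul_le_mul_of_nonneg_left e1 hC.le
  · intro k _ _ A _ _ _ _ _ _ _ u y hy1 hy2
    obtain ⟨h1, h2⟩ := hE k A u y hy1 hy2
    have hnot : ∀ (m : ℕ) (x : K), m ∉ {m : ℕ | ∃ x ∈ S₀, |rad a x - G (comp fs m)| ≤ (comp fs m : ℝ) ^ θ} →
        (∀ j, x ≠ algebraMap ℚ K (a j)) → |rad a x - G (comp fs m)| ≤ (comp fs m : ℝ) ^ θ → x ∉ E := by
      intro m x hm hx hw hxE
      apply hm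
      refine ⟨x, ?_, hw⟩
      rw [hS₀]
      exact ⟨hxE, hx⟩
    constructor
    · obtain ⟨c, hc⟩ := h1
      exact ⟨c, fun m _ hm x hx hw L _ _ _ _ φ hφ S hS => hc x (hnot m x hm hx hw) hx L φ hφ S hS⟩
    · intro S hS
      obtain ⟨R, hR, hR2⟩ := h2 S hS
      exact ⟨R, hR, fun m _ hm x hxR hx hw L _ _ _ _ φ hφ => hR2 x (hnot m x hm hx hw) hxR hx L φ hφ⟩

end Pool.Agent.Results.MP_e44225_nt.AdditiveValues
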