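import Pool.Agent.N671.DA.Win
import Pool.Agent.Results.MP_e44225_nt.OneExceptionalSet

/-!
# The error term in Vojta's inequality at all points whose radical is near the value of a function at the denominator of a
good approximation

Let `K` be a number field and `a_1, …, a_q` distinct rational numbers, `q ≥ 3`, for example `q = 3`. The radical `rad x` of an
element `x` of `K`, different from the `a_j`, is the product of the norms of the primes of `K` at which `x` and some `a_j` have
the same reduction (`exp` of the truncated counting function of `OneExceptionalSet`). There are `X ^ (2 / q + o(1))` elements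
`x`, of all heights, with `rad x ≤ X`.

Let `α_1, …, α_m` be real numbers. We consider the natural numbers `n` with `‖n α_j - β_j‖ ≤ c n^(-τ)` for all `j`, `‖x‖` the
distance to the nearest integer; for `β = 0`, `c = 1`, `τ = 1 / m` these include the denominators of all best simultaneous
approximations (the denominators of the convergents for `m = 1`). They form a very sparse sequence, with gaps growing
exponentially for almost all `α` if `τ = 1 / m`. Let `G` be a function with steps bounded below by a positive constant and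
growth at most `v^d`, for example `α v^d`. We show: for every `κ > 0` there is `ν > 0` such that for all `α` in `ℝ^m` outside
ONE set of Hausdorff dimension at most `(m + d (2 / q - ν) + θ) / (1 + τ)` and all `c`, for all number fields `k`, ALL smooth
projective curves `C` over `k` and ALL finite maps `t : C → ℙ¹` over `k` unramified outside the fibres over the `a_j` (by Belyi's
theorem every curve has such maps, and every reduced divisor `D` of `C` is contained in the union `F` of the fibres over the
`a_j` for some such map), all finite sets `S` of primes and all but finitely many such `n`: ALL points `P` of `C` of all degrees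
over ALL `x` in `K` with `|rad x - G n| ≤ n^θ` satisfy `m_S(F, P) + (deg K_C / N) h(x) < d(L) - (2 - κ) h(x)`, for all number
fields `L` containing `K` over which `P` is defined. For `τ = 1 / m` the bound is less than `m` if `2 d / q + θ ≤ 1`; and so the
statement holds for almost all `α`.

Proof. The `n` such that the radical of some exceptional `x` is near `G n` form a set with `O(X^(d (2 / q - ν) + θ + ε))`
elements up to `X`, by the starting theorem `OneExceptionalSet` of this problem; and the `α` with `‖n α_j - β_j‖ ≤ c n^(-τ)` for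
all `j` and infinitely many `n` of such a set are covered by few small cubes.
-/

set_option autoImplicit false

namespace Pool.Agent.Results.MP_e44225_nt.SimultaneousApproximations

open Polynomial IsDedekindDomain NumberField
open Pool.Agent.N671.DA (Solves Expanding expanding_pow approx_windows step_sum)

/-- The radical of `x`: the product of the norms of the primes of `K` at which `x` and some `a_j` have the same reduction. -/
noncomputable def rad {K : Type} [Field K] [NumberField K] {q : ℕ} (a : Fin q → ℚ) (x : K) : ℝ :=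
  Real.exp (OneExceptionalSet.counting (fun j => algebraMap ℚ K (a j)) x)

/-- `G n - n ^ θ` tends to infinity for `θ < 1` -/
lemma far {G : ℕ → ℝ} {d θ : ℝ} (hG : Expanding G d) (hθ : θ < 1) (M : ℝ) :
    ∃ n₀ : ℕ, ∀ n : ℕ, n₀ ≤ n → M < G n - (n : ℝ) ^ θ := by
  obtain ⟨-, ⟨a, ha, hstep⟩, -⟩ := hG
  have h1 : Filter.Tendsto (fun x : ℝ => x ^ (-(1 - θ))) Filter.atTop (nhds 0) :=
    tendsto_rpow_neg_atTop (by linarith)
  have h2 := (h1.comp tendsto_natCast_atTop_atTop).eventually (gt_mem_nhds (show (0 : ℝ) < a / 2 by positivity))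
  obtain ⟨n1, hn1⟩ := Filter.eventually_atTop.1 h2
  obtain ⟨n2, hn2⟩ := exists_nat_gt ((M - G 1 + a) / (a / 2))
  refine ⟨max (max n1 n2) 1, fun n hn => ?_⟩
  have hn1' : n1 ≤ n := (le_max_left _ _).trans ((le_max_left _ _).trans hn)
  have hn2' : n2 ≤ n := (le_max_right _ _).trans ((le_max_left _ _).trans hn)
  have hn3 : 1 ≤ n := (le_max_right _ _).trans hn
  have hnR : (1 : ℝ) ≤ n := by exact_mod_cast hn3
  have h3 := step_sum hstep le_rfl hn3
  rw [Nat.cast_sub hn3, Nat.cast_one] at h3
  have h4 : (n : ℝ) ^ (-(1 - θ)) < a / 2 := hn1 n hn1'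
  have h5 : (n : ℝ) ^ θ = (n : ℝ) ^ (-(1 - θ)) * n := by
    rw [← Real.rpow_add_one (by linarith)]
    ring_nf
  have h6 : (n : ℝ) ^ θ ≤ a / 2 * n := by
    rw [h5]
    exact mul_le_mul_of_nonneg_right h4.le (by linarith)
  have h7 : (M - G 1 + a) / (a / 2) < n := hn2.trans_le (by exact_mod_cast hn2')
  rw [div_lt_iff₀ (by positivity)] at h7
  linarith

/-- **Theorem.** Let `K` be a number field, `a_1, …, a_q` distinct rational numbers, `q ≥ 3`, and `κ > 0`. There is `ν > 0`
such that for all expanding functions `G` of order `d`, `0 ≤ θ < 1`, `β` in `ℝ^m` and `τ > 0` there is a set `E` in `ℝ^m` of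
Hausdorff dimension at most `(m + d (2 / q - ν) + θ) / (1 + τ)` with the following property. Let `k` be a number field and `A`
a Dedekind domain, finite over `k[t]` and containing it (the ring of functions of a smooth affine curve over `k` which is finite
over the `t`-line), of rank `N`, and let `y_{j 0} = t - a_j, y_{j 1}, …` be elements of the radical of the ideal `(t - a_j)` of
`A`, for example generators; write `g` for `q - 2 - (∑_j dim (A / (y_{j 0}, y_{j 1}, …))) / N`, which is `deg K_C / N` for
generators and `t` unramified outside the fibres over the `a_j` (`OneExceptionalSet.canonical`).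

(1) There is a constant `C`, depending only on these data, such that for `α` outside `E`, all `c` and all `n ≥ Q(α, c)` with
`‖n α_j - β_j‖ ≤ c n^(-τ)` for all `j`: for ALL `x` in `K` with `|rad x - G n| ≤ n^θ`, all points `P` of the curve with
`t(P) = x`, all number fields `L` containing `k` and `K` over which `P` is defined and all finite sets `S` of primes
`m_S(F, P) + g h(x) ≤ d(L) - (2 - κ) h(x) + ∑_{p ∈ S} log p + C`. Here `Q(α, c)` does not depend on `k`, the curve and `S`.

(2) For every finite set `S` of primes, `α` outside `E`, all `c` and all sufficiently large `n` with `‖n α_j - β_j‖ ≤ c n^(-τ)`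
for all `j`: for ALL these `x`, `P` and `L` one has `m_S(F, P) + g h(x) < d(L) - (2 - κ) h(x)`.

The functions `α v^d` with `α > 0`, `d ≥ 1` are examples of `G`. -/
theorem result (K : Type) [Field K] [NumberField K] (q : ℕ) (hq : 3 ≤ q) (a : Fin q → ℚ) (ha : Function.Injective a) :
    (∀ κ : ℝ, 0 < κ → ∃ ν : ℝ, 0 < ν ∧ ν ≤ 2 / (q : ℝ) ∧ ∀ (G : ℕ → ℝ) (d : ℝ), Expanding G d →
      ∀ θ : ℝ, 0 ≤ θ → θ < 1 → ∀ (m : ℕ) (β : Fin m → ℝ) (τ : ℝ), 0 < τ →
      ∃ (E : Set (Fin m → ℝ)) (Q : (Fin m → ℝ) → ℝ → ℕ),
        dimH E ≤ ENNReal.ofReal ((m + (d * (2 / (q : ℝ) - ν) + θ)) / (1 + τ)) ∧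
        ∀ (k : Type) [Field k] [NumberField k] (A : Type) [CommRing A] [IsDedekindDomain A]
          [Algebra k A] [Algebra k[X] A] [IsScalarTower k k[X] A] [Module.Finite k[X] A]
          [FaithfulSMul k[X] A] (u : Fin q → ℕ) (y : ∀ j, Fin (u j + 1) → A),
          (∀ j, y j 0 = OneExceptionalSet.coord k A - algebraMap k A (algebraMap ℚ k (a j))) →
          (∀ j i, y j i ∈ (Ideal.span
            {OneExceptionalSet.coord k A - algebraMap k A (algebraMap ℚ k (a j))}).radical) →
          (∃ C : ℝ, ∀ α, α ∉ E → ∀ c : ℝ, ∀ n : ℕ, Q α c ≤ n → Solves α β n (c * (n : ℝ) ^ (-τ)) →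
            ∀ x : K, (∀ j, x ≠ algebraMap ℚ K (a j)) → |rad a x - G n| ≤ (n : ℝ) ^ θ →
              ∀ (L : Type) [Field L] [NumberField L] [Algebra K L] [Algebra k L] (φ : A →ₐ[k] L),
                φ (OneExceptionalSet.coord k A) = algebraMap K L x →
                  ∀ S : Finset ℕ, (∀ p ∈ S, p.Prime) →
                    OneExceptionalSet.proximity S y φ + OneExceptionalSet.canonical k y * OneExceptionalSet.height x ≤
                      OneExceptionalSet.logDisc L - (2 - κ) * OneExceptionalSet.height x +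
                        ∑ p ∈ S, Real.log p + C) ∧
          ∀ S : Finset ℕ, (∀ p ∈ S, p.Prime) → ∀ α, α ∉ E → ∀ c : ℝ, ∃ n₀ : ℕ, ∀ n : ℕ, n₀ ≤ n →
            Solves α β n (c * (n : ℝ) ^ (-τ)) →
            ∀ x : K, (∀ j, x ≠ algebraMap ℚ K (a j)) → |rad a x - G n| ≤ (n : ℝ) ^ θ →
              ∀ (L : Type) [Field L] [NumberField L] [Algebra K L] [Algebra k L] (φ : A →ₐ[k] L),
                φ (OneExceptionalSet.coord k A) = algebraMap K L x →
                  OneExceptionalSet.proximity S y φ + OneExceptionalSet.canonical k y * OneExceptionalSet.height x <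
                    OneExceptionalSet.logDisc L - (2 - κ) * OneExceptionalSet.height x) ∧
    ∀ α d : ℝ, 0 < α → 1 ≤ d → Expanding (fun v => α * (v : ℝ) ^ d) d := by
  refine ⟨fun κ hκ => ?_, fun α d hα hd => expanding_pow hα hd⟩
  classical
  obtain ⟨hval, hres⟩ := OneExceptionalSet.result K q hq a ha
  obtain ⟨Ex, ⟨ν, C, hν, hC, hcount⟩, -, hEx⟩ := hres κ hκ
  have hfin : ∀ X : ℝ, 1 ≤ X → (OneExceptionalSet.Values K a X).Finite := by
    obtain ⟨⟨C1, h1⟩, -⟩ := hval 1 one_pos
    exact fun X hX => (h1 X hX).1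
  have hq0 : (0 : ℝ) < q := by
    have : 0 < q := by omega
    exact_mod_cast this
  refine ⟨min ν (2 / q), lt_min hν (by positivity), min_le_right _ _, ?_⟩
  intro G d hG θ hθ hθ1 m β τ hτ
  have hiff : ∀ (x : K) (X : ℝ), 1 ≤ X → (rad a x ≤ X ↔
      OneExceptionalSet.counting (fun j => algebraMap ℚ K (a j)) x ≤ Real.log X) := by
    intro x X hX
    unfold rad
    rw [Real.le_log_iff_exp_le (by linarith)]
  obtain ⟨E, hE1, hE2⟩ := approx_windows {x : K | x ∈ Ex ∧ ∀ j, x ≠ algebraMap ℚ K (a j)} (rad a) hG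
    (s := 2 / (q : ℝ) - min ν (2 / q)) (κ := θ) (sub_nonneg.2 (min_le_right _ _)) hθ hθ1.le (by
      intro ε hε
      refine ⟨C, fun X hX => ?_⟩
      have hsub : {x : K | x ∈ {x : K | x ∈ Ex ∧ ∀ j, x ≠ algebraMap ℚ K (a j)} ∧ rad a x ≤ X} ⊆
          Ex ∩ OneExceptionalSet.Values K a X := by
        rintro x ⟨⟨h1, h2⟩, h3⟩
        exact ⟨h1, h2, (hiff x X hX).1 h3⟩
      have hf : (Ex ∩ OneExceptionalSet.Values K a X).Finite := (hfin X hX).subset Set.inter_subset_right
      refine ⟨hf.subset hsub, ?_⟩
      calc _ ≤ ((Ex ∩ OneExceptionalSet.Values K a X).ncard : ℝ) := Nat.cast_le.2 (Set.ncard_le_ncard hsub hf)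
        _ ≤ C * X ^ (2 / (q : ℝ) - ν) := hcount X hX
        _ ≤ C * X ^ (2 / (q : ℝ) - min ν (2 / q) + ε) := by
            refine mul_le_mul_of_nonneg_left (Real.rpow_le_rpow_of_exponent_le hX ?_) hC.le
            linarith [min_le_left ν (2 / (q : ℝ))]) β hτ
  have hQ : ∀ (α : Fin m → ℝ) (c : ℝ), ∃ Q : ℕ, α ∉ E → ∀ n : ℕ, Q ≤ n → Solves α β n (c * (n : ℝ) ^ (-τ)) →
      ∀ t ∈ {x : K | x ∈ Ex ∧ ∀ j, x ≠ algebraMap ℚ K (a j)}, ¬ |rad a t - G n| ≤ (n : ℝ) ^ θ := by
    intro α c
    by_cases hα : α ∈ E
    · exact ⟨0, fun h => absurd hα h⟩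
    · obtain ⟨Q, h⟩ := hE2 α hα c
      exact ⟨Q, fun _ => h⟩
  choose Q hQ using hQ
  refine ⟨E, Q, hE1, ?_⟩
  intro k _ _ A _ _ _ _ _ _ _ u y hy1 hy2
  obtain ⟨⟨C', hC'⟩, hS2⟩ := hEx k A u y hy1 hy2
  refine ⟨⟨C', ?_⟩, ?_⟩
  · intro α hα c n hn hsol x hxa hx L _ _ _ _ φ hφ S hS
    have hxE : x ∉ Ex := fun h => hQ α c hα n hn hsol x ⟨h, hxa⟩ hx
    exact hC' x hxE hxa L φ hφ S hS
  · intro S hS α hα c
    obtain ⟨R, hRf, hR⟩ := hS2 S hS
    obtain ⟨M, hM⟩ : ∃ M : ℝ, ∀ x ∈ R, rad a x ≤ M := by
      obtain ⟨M, hM⟩ := (hRf.image fun x => rad a x).bddAbove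
      exact ⟨M, fun x hx => hM ⟨x, hx, rfl⟩⟩
    obtain ⟨n₀, hn₀⟩ := far hG hθ1 M
    refine ⟨max (Q α c) n₀, fun n hn hsol x hxa hx L _ _ _ _ φ hφ => ?_⟩
    have hxE : x ∉ Ex := fun h => hQ α c hα n ((le_max_left _ _).trans hn) hsol x ⟨h, hxa⟩ hx
    have hxR : x ∉ R := by
      intro h
      have h1 := hM x h
      have h2 := hn₀ n ((le_max_right _ _).trans hn)
      have h3 := (abs_le.1 hx).1
      linarith
    exact hR x hxE hxR hxa L φ hφ

end Pool.Agent.Results.MP_e44225_nt.SimultaneousApproximations
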