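import Pool.Agent.N760.IT.D
import Pool.Agent.Results.MP_e44225_nt.OneExceptionalSet

/-!
# The error term in Vojta's inequality for all curves at all points over all elements whose radicals are near the members of
almost all orbits of Euler's function

Let `φ_k` be the `k`-th iterate of Euler's function, `φ_0(m) = m`. Let `f` be a positive multiplicative function of at most
polynomial growth such that `f p ≤ M p` for the large primes `p`, with different values at different large primes; for example
the identity, Euler's function or the sum of the divisors. Let `G` have steps bounded below by a positive constant and growth at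
most `v ^ d`, for example `G v = v`. Let `K` be a number field, `a_1, …, a_q`, `q ≥ 3`, distinct rational numbers and `R(x)` the
exponential of the truncated counting function of `[a_1] + … + [a_q]` at `x`, the product of the norms of the primes at which `x`
and some `a_j` have the same reduction; there are `X ^ (2 / q + o(1))` elements `x` of `K`, of whatever height, with `R(x) ≤ X`.
Let `κ > 0`. There is `ν > 0` such that for `θ ≥ 0`, `d (2 / q - ν) + θ < 1`, there are ONE function `T(m)` tending to infinity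
and ONE set `W` of integers `m` of density zero such that for ALL number fields `k`, ALL smooth projective curves `C` over `k`
and ALL finite maps `t : C → ℙ¹` over `k` which are unramified outside the fibres over the `a_j` (by Belyi's theorem every curve
has such maps, and every reduced divisor `D` of `C` is contained in the union `F` of the fibres over the `a_j` for some such map)
all points `P` of all degrees over ALL `x` in `K` with `|R(x) - G v| ≤ v ^ θ`, `v = f(φ_i(m))`, for some `m` not in `W` and some
`i ≤ T(m)` satisfy `m_S(F, P) + (deg K_C / N) h(x) ≤ d(L) - (2 - κ) h(x) + ∑_{p ∈ S} log p + c` for all finite sets `S` of primes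
and all number fields `L` over which `P` is defined, and, with finitely many exceptions `x` for each `S`,
`m_S(F, P) + (deg K_C / N) h(x) < d(L) - (2 - κ) h(x)`. For the terms see `OneExceptionalSet`. The iterates of Euler's function are
not multiplicative, their values form a very thin set and are taken with very large multiplicities, and so this does not follow
from the number of exceptional `x`.
-/

set_option autoImplicit false

namespace Pool.Agent.Results.MP_e44225_nt.TotientOrbits

open Polynomial IsDedekindDomain NumberField Filter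
open Pool.Agent.N733.TG (LM Expanding lm_totient lm_sigma expanding_pow)
open Pool.Agent.N760.IT (orb lm_id)
open Pool.Agent.N826.IT.Orb (AlmostAll almostAll_mono)
open OneExceptionalSet (coord height proximity counting logDisc canonical Values)

/-- `R(x)`, the exponential of the truncated counting function of `[a_1] + … + [a_q]` at `x` -/
noncomputable def rad {K : Type} [Field K] [NumberField K] {q : ℕ} (a : Fin q → ℚ) (x : K) : ℝ :=
  Real.exp (counting (fun j => algebraMap ℚ K (a j)) x)

/-- **Theorem.** Let `K` be a number field, `a_1, …, a_q`, `q ≥ 3`, distinct rational numbers and `κ > 0`. There is `ν > 0`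
with the following property. Let `f` be multiplicative and positive, of at most polynomial growth, with `f p ≤ M p` at the large
primes, and injective there, let `G` have steps `≥ c > 0` and growth at most `v ^ d`, `θ ≥ 0` and `d (2 / q - ν) + θ < 1`. There
are a function `T(m)` tending to infinity and a set `W` of integers of density zero such that the following holds for all number
fields `k`. Let `A` be a Dedekind domain, finite over `k[t]` and containing it, and let `y_{j 0} = t - a_j, y_{j 1}, …` be
elements of the radical of the ideal `(t - a_j)` of `A`, for example generators. Write `g` for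
`q - 2 - (∑_j dim (A / (y_{j 0}, y_{j 1}, …))) / N`. (a) There is a constant `c` such that for all `m` not in `W`, all
`i ≤ T(m)`, with `v = f(φ_i(m))` (`orb f i m`), and ALL `x` in `K`, different from the `a_j`, with `|R(x) - G v| ≤ v ^ θ`, all
points `P` of the curve with `t(P) = x`, all number fields `L` containing `k` and `K` over which `P` is defined and all finite
sets `S` of primes satisfy `m_S(F, P) + g h(x) ≤ d(L) - (2 - κ) h(x) + ∑_{p ∈ S} log p + c`. (b) For every finite set `S` of
primes, all but finitely many of these `x` satisfy `m_S(F, P) + g h(x) < d(L) - (2 - κ) h(x)` for all these `P` and `L`. The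
identity, Euler's function and the sum of the divisors are examples of such functions `f`, and `α v ^ d` with `α > 0`, `d ≥ 1` is
an example of `G`. -/
theorem result (K : Type) [Field K] [NumberField K] (q : ℕ) (hq : 3 ≤ q) (a : Fin q → ℚ)
    (ha : Function.Injective a) (κ : ℝ) (hκ : 0 < κ) :
    (∃ ν : ℝ, 0 < ν ∧ ∀ f : ℕ → ℕ, LM f → ∀ (G : ℕ → ℝ) (d θ : ℝ), Expanding G d → 0 ≤ θ →
      d * (2 / (q : ℝ) - ν) + θ < 1 → ∃ (T : ℕ → ℕ) (W : Set ℕ), Tendsto T atTop atTop ∧ AlmostAll (fun m => m ∉ W) ∧
      ∀ (k : Type) [Field k] [NumberField k] (A : Type) [CommRing A] [IsDedekindDomain A]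
        [Algebra k A] [Algebra k[X] A] [IsScalarTower k k[X] A] [Module.Finite k[X] A]
        [FaithfulSMul k[X] A] (u : Fin q → ℕ) (y : ∀ j, Fin (u j + 1) → A),
        (∀ j, y j 0 = coord k A - algebraMap k A (algebraMap ℚ k (a j))) →
        (∀ j i, y j i ∈
          (Ideal.span {coord k A - algebraMap k A (algebraMap ℚ k (a j))}).radical) →
        (∃ c : ℝ, ∀ m : ℕ, m ∉ W → ∀ i ≤ T m, ∀ x : K, (∀ j, x ≠ algebraMap ℚ K (a j)) →
          |rad a x - G (orb f i m)| ≤ (orb f i m : ℝ) ^ θ →
          ∀ (L : Type) [Field L] [NumberField L] [Algebra K L] [Algebra k L] (φ : A →ₐ[k] L),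
            φ (coord k A) = algebraMap K L x → ∀ S : Finset ℕ, (∀ p ∈ S, p.Prime) →
              proximity S y φ + canonical k y * height x ≤
                logDisc L - (2 - κ) * height x + ∑ p ∈ S, Real.log p + c) ∧
        ∀ S : Finset ℕ, (∀ p ∈ S, p.Prime) → ∃ R : Set K, R.Finite ∧
          ∀ m : ℕ, m ∉ W → ∀ i ≤ T m, ∀ x : K, x ∉ R → (∀ j, x ≠ algebraMap ℚ K (a j)) →
          |rad a x - G (orb f i m)| ≤ (orb f i m : ℝ) ^ θ →
          ∀ (L : Type) [Field L] [NumberField L] [Algebra K L] [Algebra k L] (φ : A →ₐ[k] L),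
            φ (coord k A) = algebraMap K L x →
              proximity S y φ + canonical k y * height x < logDisc L - (2 - κ) * height x) ∧
    (LM (fun m => m) ∧ LM Nat.totient ∧ LM (fun m => ∑ d ∈ m.divisors, d)) ∧
    ∀ α d : ℝ, 0 < α → 1 ≤ d → Expanding (fun v => α * (v : ℝ) ^ d) d := by
  refine ⟨?_, ⟨lm_id, lm_totient, lm_sigma⟩, fun α d hα hd => expanding_pow hα hd⟩
  obtain ⟨hval, hres⟩ := OneExceptionalSet.result K q hq a ha
  obtain ⟨E, ⟨ν, C, hν, hC, hcount⟩, -, hE⟩ := hres κ hκ
  have hfin : ∀ X : ℝ, 1 ≤ X → (Values K a X).Finite := by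
    obtain ⟨⟨C1, h1⟩, -⟩ := hval 1 one_pos
    exact fun X hX => (h1 X hX).1
  have hq0 : (0 : ℝ) < q := by
    have : 0 < q := by omega
    exact_mod_cast this
  have hg : 0 < 2 / (q : ℝ) := by positivity
  obtain ⟨ν', hν'⟩ : ∃ ν', ν' = min ν (2 / (q : ℝ)) := ⟨_, rfl⟩
  have hν'0 : 0 < ν' := by rw [hν']; exact lt_min hν hg
  have hν'1 : ν' ≤ ν := by rw [hν']; exact min_le_left _ _
  have hν'2 : ν' ≤ 2 / (q : ℝ) := by rw [hν']; exact min_le_right _ _
  refine ⟨ν', hν'0, fun f hf G d θ hG hθ h3 => ?_⟩
  obtain ⟨S₀, hS₀⟩ : ∃ S₀ : Set K, S₀ = {x : K | x ∈ E ∧ ∀ j, x ≠ algebraMap ℚ K (a j)} := ⟨_, rfl⟩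
  have hw : ∃ C : ℝ, ∀ X : ℝ, 1 ≤ X → {x : K | x ∈ S₀ ∧ rad a x ≤ X}.Finite ∧
      ({x : K | x ∈ S₀ ∧ rad a x ≤ X}.ncard : ℝ) ≤ C * X ^ (2 / (q : ℝ) - ν') := by
    refine ⟨C, fun X hX => ?_⟩
    have hX0 : 0 < X := by linarith
    have hsub : {x : K | x ∈ S₀ ∧ rad a x ≤ X} ⊆ E ∩ Values K a X := by
      rintro x ⟨h1, h2⟩
      rw [hS₀] at h1
      refine ⟨h1.1, h1.2, ?_⟩
      rw [Real.le_log_iff_exp_le hX0]
      exact h2
    have hf2 : (E ∩ Values K a X).Finite := (hfin X hX).subset Set.inter_subset_right
    refine ⟨hf2.subset hsub, ?_⟩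
    have e1 : X ^ (2 / (q : ℝ) - ν) ≤ X ^ (2 / (q : ℝ) - ν') :=
      Real.rpow_le_rpow_of_exponent_le hX (by linarith)
    calc ({x : K | x ∈ S₀ ∧ rad a x ≤ X}.ncard : ℝ) ≤ ((E ∩ Values K a X).ncard : ℝ) := by
          exact_mod_cast Set.ncard_le_ncard hsub hf2
      _ ≤ C * X ^ (2 / (q : ℝ) - ν) := hcount X hX
      _ ≤ C * X ^ (2 / (q : ℝ) - ν') := mul_le_mul_of_nonneg_left e1 hC.le
  obtain ⟨T, hT, hT2⟩ := Pool.Agent.N760.IT.orbit_windows' S₀ (fun x : K => rad a x) hf hG (by linarith) hθ h3 hw
  refine ⟨T, {m : ℕ | ¬ ∀ i ≤ T m, ∀ x ∈ S₀, ¬ |rad a x - G (orb f i m)| ≤ (orb f i m : ℝ) ^ θ}, hT,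
    almostAll_mono hT2 (fun m hm hcon => hcon hm), ?_⟩
  intro k _ _ A _ _ _ _ _ _ _ u y hy1 hy2
  obtain ⟨h1, h2⟩ := hE k A u y hy1 hy2
  have hnot : ∀ (m i : ℕ) (x : K),
      m ∉ {m : ℕ | ¬ ∀ i ≤ T m, ∀ x ∈ S₀, ¬ |rad a x - G (orb f i m)| ≤ (orb f i m : ℝ) ^ θ} → i ≤ T m →
      (∀ j, x ≠ algebraMap ℚ K (a j)) → |rad a x - G (orb f i m)| ≤ (orb f i m : ℝ) ^ θ → x ∉ E := by
    intro m i x hm hi hx hw hxE
    have hm' := not_not.1 hm
    refine hm' i hi x ?_ hw
    rw [hS₀]
    exact ⟨hxE, hx⟩
  constructor
  · obtain ⟨c, hc⟩ := h1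
    exact ⟨c, fun m hm i hi x hx hw L _ _ _ _ φ hφ S hS => hc x (hnot m i x hm hi hx hw) hx L φ hφ S hS⟩
  · intro S hS
    obtain ⟨R, hR, hR2⟩ := h2 S hS
    exact ⟨R, hR, fun m hm i hi x hxR hx hw L _ _ _ _ φ hφ => hR2 x (hnot m i x hm hi hx hw) hxR hx L φ hφ⟩

end Pool.Agent.Results.MP_e44225_nt.TotientOrbits
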